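import Pool.Agent.U29.CY.Stm

set_option autoImplicit false

namespace Pool.Agent.U29.CY

open Finset MeasureTheory Filter Pool.Agent.U762.RP

/-- a sequence of decreasing events of probability `≤ C N^(-A)` has a null intersection -/
theorem null_of_tail {Ω : Type*} [MeasurableSpace Ω] (P : Measure Ω) (E : ℝ → Set Ω) (C : ℝ)
    (h : ∀ N : ℝ, 1 ≤ N → P (E N) ≤ ENNReal.ofReal (C * N ^ (-(1 : ℝ)))) :
    P {ω | ∀ N : ℕ, ω ∈ E ((N : ℝ) + 1)} = 0 := by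
  have hle : ∀ N : ℕ, P {ω | ∀ N : ℕ, ω ∈ E ((N : ℝ) + 1)} ≤
      ENNReal.ofReal (C * ((N : ℝ) + 1) ^ (-(1 : ℝ))) := by
    intro N
    have h1 : (1 : ℝ) ≤ (N : ℝ) + 1 := by
      have : (0 : ℝ) ≤ (N : ℝ) := Nat.cast_nonneg N
      linarith
    refine (measure_mono ?_).trans (h _ h1)
    intro ω hω
    exact hω N
  have hlim : Tendsto (fun N : ℕ => ENNReal.ofReal (C * ((N : ℝ) + 1) ^ (-(1 : ℝ)))) atTop
      (nhds 0) := by
    have h1 : Tendsto (fun N : ℕ => C * ((N : ℝ) + 1) ^ (-(1 : ℝ))) atTop (nhds 0) := by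
      have h2 : Tendsto (fun N : ℕ => ((N : ℝ) + 1) ^ (-(1 : ℝ))) atTop (nhds 0) := by
        have h3 := tendsto_one_div_add_atTop_nhds_zero_nat (𝕜 := ℝ)
        refine h3.congr (fun N => ?_)
        rw [Real.rpow_neg_one, one_div]
      simpa using h2.const_mul C
    have h4 := ENNReal.tendsto_ofReal h1
    rwa [ENNReal.ofReal_zero] at h4
  exact le_antisymm (ge_of_tendsto' hlim hle) bot_le

/-- assembly of the final theorem -/
theorem asm (hANA : S_ANA) (hPRB : S_PRB) (hDET : S_DET) (hLNG : S_LNG) (hTAIL : S_TAIL) (hBC : S_BC)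
    (hBDD : S_BDD) (hFPP : S_FPP) : S_CY := by
  intro d m r hrel hprod ε hε hε1
  obtain ⟨K, hK⟩ := hANA d m r hrel hprod ε hε hε1
  refine ⟨K, ?_⟩
  intro B μ hμ hlaw
  have hdec : Dec d m r ε K := hK
  obtain ⟨M, C, lam, hM, hC, hlam, hlam1, hbd⟩ := hLNG hPRB d m r ε K hdec B μ hlaw
  have htail := hTAIL d m r hrel B μ hlaw.bdd M C lam hM hC hlam hlam1 hbd
  refine ⟨?_, htail⟩
  obtain ⟨c, hc, hbc⟩ := hBC d m r μ M C lam hM hC hlam hlam1 hbd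
  have hb := hBDD B μ hlaw.bdd
  obtain ⟨c', hc', hdet⟩ := hDET d m r B M c hrel.two_le hc
  obtain ⟨C1, hC1⟩ := htail 1 one_pos
  have hnull := null_of_tail (Measure.infinitePi fun _ : ℤ => μ)
    (fun N => {ω | ∃ x ∈ Function.periodicPts (stp d m r ω),
        ∀ i : ℕ, N ≤ |(((stp d m r ω)^[i] x : ℤ) : ℝ)|}) C1 hC1
  have hae : ∀ᵐ ω ∂(Measure.infinitePi fun _ : ℤ => μ), ¬ ∀ N : ℕ,
      ∃ x ∈ Function.periodicPts (stp d m r ω),
        ∀ i : ℕ, (N : ℝ) + 1 ≤ |(((stp d m r ω)^[i] x : ℤ) : ℝ)| := by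
    rw [ae_iff]
    simp only [not_not]
    exact hnull
  filter_upwards [hbc, hb, hae] with ω h1 h2 h3
  obtain ⟨C2, hC2⟩ := hdet ω h2 h1
  push Not at h3
  obtain ⟨N, hN⟩ := h3
  exact hFPP (stp d m r ω) ((N : ℝ) + 1) (fun x => (hC2 x).1) hN

end Pool.Agent.U29.CY
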