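import Pool.Agent.U29.CY.Stm2
import Pool.Agent.U29.CY.Asm

set_option autoImplicit false

namespace Pool.Agent.U29.CY

open Finset MeasureTheory Filter Pool.Agent.U762.RP

/-- the product of the multipliers is prime to `d`, so it is not `d^d` -/
theorem prod_ne {d : ℕ} {m r : ℤ → ℤ} (h : Rel d m r) : (∏ j ∈ range d, m (j : ℤ)) ≠ (d : ℤ) ^ d := by
  intro he
  have hcop : IsCoprime (∏ j ∈ range d, m (j : ℤ)) (d : ℤ) := by
    refine IsCoprime.prod_left fun j hj => ?_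
    have hj' := mem_range.1 hj
    exact h.cop (j : ℤ) (by positivity) (by exact_mod_cast hj')
  rw [he] at hcop
  have hd : d ≠ 0 := by
    have := h.two_le
    omega
  have h1 : IsCoprime (d : ℤ) (d : ℤ) := (IsCoprime.pow_left_iff (Nat.pos_of_ne_zero hd)).1 hcop
  have h2 : IsUnit (d : ℤ) := isCoprime_self.1 h1
  have h3 := Int.isUnit_iff.1 h2
  have := h.two_le
  omega

/-- almost surely the cycles have a bounded smallest element -/
theorem ae_bounded {d : ℕ} {m r : ℤ → ℤ} {μ : Measure ℤ} [IsProbabilityMeasure μ]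
    (htail : ∀ A : ℝ, 0 < A → ∃ C : ℝ, ∀ N : ℝ, 1 ≤ N →
      (Measure.infinitePi fun _ : ℤ => μ) {ω | ∃ x ∈ Function.periodicPts (stp d m r ω),
        ∀ i : ℕ, N ≤ |(((stp d m r ω)^[i] x : ℤ) : ℝ)|} ≤ ENNReal.ofReal (C * N ^ (-A))) :
    ∀ᵐ ω ∂(Measure.infinitePi fun _ : ℤ => μ), ∃ N : ℝ, ∀ x ∈ Function.periodicPts (stp d m r ω),
      ∃ i : ℕ, |(((stp d m r ω)^[i] x : ℤ) : ℝ)| < N := by
  obtain ⟨C1, hC1⟩ := htail 1 one_pos
  have hnull := null_of_tail (Measure.infinitePi fun _ : ℤ => μ)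
    (fun N => {ω | ∃ x ∈ Function.periodicPts (stp d m r ω),
        ∀ i : ℕ, N ≤ |(((stp d m r ω)^[i] x : ℤ) : ℝ)|}) C1 hC1
  have hae : ∀ᵐ ω ∂(Measure.infinitePi fun _ : ℤ => μ), ¬ ∀ N : ℕ,
      ∃ x ∈ Function.periodicPts (stp d m r ω),
        ∀ i : ℕ, (N : ℝ) + 1 ≤ |(((stp d m r ω)^[i] x : ℤ) : ℝ)| := by
    rw [ae_iff]
    simp only [not_not]
    exact hnull
  filter_upwards [hae] with ω h3
  push Not at h3
  obtain ⟨N, hN⟩ := h3
  exact ⟨(N : ℝ) + 1, hN⟩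

/-- assembly of the final theorem -/
theorem asm2 (hANA : S_ANA) (hANAm : S_ANAm) (hPRB : S_PRB) (hPRC : S_PRC) (hDET : S_DET)
    (hLNG : S_LNG) (hUC : S_UC) (hUE : S_UE) (hTAIL : S_TAIL2) (hBC : S_BC) (hBDD : S_BDD)
    (hFPP : S_FPP) (hFPD : S_FPD) : S_CY2 := by
  intro d m r hrel ε hε hε1
  rcases lt_or_gt_of_ne (prod_ne hrel) with hlt | hgt
  · obtain ⟨K, hK⟩ := hANA d m r hrel hlt ε hε hε1
    have hdec : Dec d m r ε K := hK
    refine ⟨K, ?_⟩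
    intro B μ hμ hlaw
    have hrare := hUC hPRB d m r ε K hdec B μ hlaw
    have htail := hTAIL d m r hrel B μ hlaw.bdd hrare
    refine ⟨?_, htail⟩
    obtain ⟨M, C, lam, hM, hC, hlam, hlam1, hbd⟩ := hLNG hPRB d m r ε K hdec B μ hlaw
    obtain ⟨c, hc, hbc⟩ := hBC d m r μ M C lam hM hC hlam hlam1 hbd
    have hb := hBDD B μ hlaw.bdd
    obtain ⟨c', hc', hdet⟩ := hDET d m r B M c hrel.two_le hc
    filter_upwards [hbc, hb, ae_bounded htail] with ω h1 h2 h3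
    obtain ⟨C2, hC2⟩ := hdet ω h2 h1
    obtain ⟨N, hN⟩ := h3
    obtain ⟨h4, h5⟩ := hFPD (stp d m r ω) N hN
    exact ⟨h4, h5, fun _ => (hFPP (stp d m r ω) N (fun x => (hC2 x).1) hN).2⟩
  · obtain ⟨K, hK⟩ := hANAm d m r hrel hgt ε hε hε1
    have hdec : Decm d m r ε K := hK
    refine ⟨K, ?_⟩
    intro B μ hμ hlaw
    have hrare := hUE hPRC d m r ε K hdec B μ hlaw
    have htail := hTAIL d m r hrel B μ hlaw.bdd hrare
    refine ⟨?_, htail⟩
    filter_upwards [ae_bounded htail] with ω h3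
    obtain ⟨N, hN⟩ := h3
    obtain ⟨h4, h5⟩ := hFPD (stp d m r ω) N hN
    exact ⟨h4, h5, fun h => absurd h (not_lt.2 hgt.le)⟩

end Pool.Agent.U29.CY
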