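import Pool.Agent.U29.CY.Asm2
import Pool.Agent.U762.RP.All
import Pool.Agent.U261.RP.EXPm
import Pool.Agent.U492.RP.AVGm
import Pool.Agent.U941.RP.WCm
import Pool.Agent.U312.RP.ANAm
import Pool.Agent.U97.CY.RAT
import Pool.Agent.U605.CY.PER
import Pool.Agent.U803.CY.LEN
import Pool.Agent.U458.CY.LNG
import Pool.Agent.U60.CY.SUM
import Pool.Agent.U139.CY.TAIL2
import Pool.Agent.U445.CY.BC
import Pool.Agent.U461.CY.FPP
import Pool.Agent.U261.CY.FPD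
import Pool.Agent.U898.CY.PRC
import Pool.Agent.U139.CY.UC
import Pool.Agent.U394.CY.UE

set_option autoImplicit false

namespace Pool.Agent.U29.CY

open Pool.Agent.U762.RP

theorem ana : S_ANA := Pool.Agent.U111.RP.t_ANA Pool.Agent.U891.RP.t_EXP
  Pool.Agent.U165.RP.REC.t_REC (Pool.Agent.U97.RP.t_WC Pool.Agent.U594.RP.t_AVG)

theorem anam : S_ANAm := Pool.Agent.U312.RP.ANAm.t_ANAm Pool.Agent.U261.RP.t_EXPm
  Pool.Agent.U165.RP.REC.t_REC (Pool.Agent.U941.RP.WCm.t_WCm Pool.Agent.U492.RP.t_AVGm)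

theorem main : S_CY2 := asm2 ana anam Pool.Agent.U511.RP.t_PRB Pool.Agent.U898.CY.t_PRC
  Pool.Agent.U898.RP.DET.t_DET Pool.Agent.U458.CY.t_LNG Pool.Agent.U139.CY.t_UC
  Pool.Agent.U394.CY.t_UE
  (Pool.Agent.U139.CY.t_TAIL2 (Pool.Agent.U803.CY.t_LEN Pool.Agent.U97.CY.t_RAT
    Pool.Agent.U605.CY.t_PER) Pool.Agent.U60.CY.t_SUM Pool.Agent.U60.CY.t_BDD)
  Pool.Agent.U445.CY.BC.t_BC Pool.Agent.U60.CY.t_BDD Pool.Agent.U461.CY.t_FPP
  Pool.Agent.U261.CY.FPD.t_FPD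

end Pool.Agent.U29.CY
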