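import Pool.Agent.U762.RP.Stm

set_option autoImplicit false

/-!
# Project CY: only finitely many cycles for random perturbations of generalized Collatz maps

Builds on project RP (`Pool.Agent.U762.RP.Stm`: `T`, `Rel`, `Q`, `ind`, `stp`, `Long`, `S_ANA`, `S_PRB`,
`S_DET`).  All statements are `Prop`s, the packages prove them.
-/

namespace Pool.Agent.U29.CY

open Finset MeasureTheory Filter Pool.Agent.U762.RP

/-- **RAT** (Ridout's theorem).  Products of `n` of the numbers `m_j / d` stay away from `1`.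
Proof: `Pool.Agent.TH930.GH.ridout_S` (file `Pool/Agent/TH930/GH/Rid.lean`) with `S1` = primes dividing `d`,
`S2` = primes dividing `∏_{j<d} m_j`, exponent `e = δ / (2 log d)`; `A = X = d^n`, `B = ∏ m_(j i)`, `D = B - A`.
`gcd(A,B) = 1`, `A ≥ 2`, so `D ≠ 0`.  If `|D| ≥ A/2` (or `B ≤ A/2`) then `|B/A - 1| ≥ 1/2`.  Otherwise
`|D| < |X|`, `B ≥ A/2` and `A B ≤ C0 |D| A^(1+e)`, so `|D|/A ≥ A^(-e)/(2 C0) = exp(-(δ/2) n)/(2 C0)`. -/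
def S_RAT : Prop := ∀ (d : ℕ) (m r : ℤ → ℤ), Rel d m r → ∀ δ : ℝ, 0 < δ → ∃ C : ℝ, 0 < C ∧
  ∀ n : ℕ, 1 ≤ n → ∀ j : ℕ → ℤ, (∀ i, 0 ≤ j i ∧ j i < d) →
    1 ≤ C * Real.exp (δ * n) * |(∏ i ∈ range n, ((m (j i) : ℤ) : ℝ) / (d : ℝ)) - 1|

/-- **PER** (product along a cycle).  Proof: with `x_i = stp^[i] x`, `j = x_i % d`,
`x_{i+1} = (m_j x_i - r_j)/d + ω(x_i)` (exact division, `Rel.dvd`: `m_(x%d) * x - r_(x%d) ≡ 0 mod d`), so
`x_{i+1}/x_i = (m_j/d) (1 + e_i)`, `e_i = (d ω - r_j)/(m_j x_i)`, `|e_i| ≤ C₁/s`, `C₁ = max |r_j| + d B`.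
The product over `i < n` of the ratios is `1` (telescoping, `x_n = x_0 ≠ 0`), so `∏ m_j/d = ∏ (1+e_i)⁻¹`, and for
`s ≥ 2 C₁`: `exp(-2 C₁/s) ≤ (1+e_i)⁻¹ ≤ exp(2 C₁/s)`, hence `|∏ - 1| ≤ exp(2 C₁ n/s) - 1`. -/
def S_PER : Prop := ∀ (d : ℕ) (m r : ℤ → ℤ), Rel d m r → ∀ B : ℕ, ∃ M₀ C : ℝ, 1 ≤ M₀ ∧ 0 < C ∧
  ∀ ω : ℤ → ℤ, (∀ x : ℤ, |ω x| ≤ (B : ℤ)) → ∀ (x : ℤ) (n : ℕ), 1 ≤ n → (stp d m r ω)^[n] x = x →
    ∀ s : ℝ, M₀ ≤ s → (∀ i : ℕ, i < n → s ≤ |(((stp d m r ω)^[i] x : ℤ) : ℝ)|) →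
      |(∏ i ∈ range n, ((m (((stp d m r ω)^[i] x) % d) : ℤ) : ℝ) / (d : ℝ)) - 1| ≤
        Real.exp (C * n / s) - 1

/-- **LEN** (cycles far out are much longer than the logarithm), from RAT and PER: let `s = |x|` be the smallest
modulus on the cycle, `n` the minimal period, and suppose `n < A log(2+s) + 1`.  RAT with `δ = 1/(4A)` and PER
give `1 ≤ C_δ e^(δ n) (exp(C n/s) - 1)`, with `e^(δ n) ≤ e^δ (2+s)^(1/4)` and
`exp(C n/s) - 1 ≤ 2 C n/s ≤ 2 C (A log(2+s)+1)/s` for large `s` (`C n / s ≤ 1`): impossible for `s ≥ S₀`. -/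
def S_LEN : Prop := ∀ (d : ℕ) (m r : ℤ → ℤ), Rel d m r → ∀ (B : ℕ) (A : ℝ), 0 < A → ∃ S₀ : ℝ, 1 ≤ S₀ ∧
  ∀ ω : ℤ → ℤ, (∀ x : ℤ, |ω x| ≤ (B : ℤ)) → ∀ x : ℤ, x ∈ Function.periodicPts (stp d m r ω) →
    (∀ i : ℕ, |x| ≤ |(stp d m r ω)^[i] x|) → S₀ ≤ |(x : ℝ)| →
      A * Real.log (2 + |(x : ℝ)|) + 1 ≤ (Function.minimalPeriod (stp d m r ω) x : ℝ)

/-- exponential decay of the survival probability at block length `K` (the conclusion of `S_ANA`) -/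
def Dec (d : ℕ) (m r : ℤ → ℤ) (ε : ℝ) (K : ℕ) : Prop := ∀ B : ℕ, d ^ K ≤ B →
  ∃ M C lam : ℝ, 1 ≤ M ∧ 0 < C ∧ 0 < lam ∧ lam < 1 ∧ ∀ w : ℤ → ℝ, (∀ u, 0 ≤ w u) →
    ∑ u ∈ Icc (-(B : ℤ)) B, w u ≤ 1 →
    (∀ u : ℤ, 0 ≤ u → u < (d : ℤ) ^ K → ε / (d : ℝ) ^ K ≤ w u) → ∀ (L : ℕ) (x : ℤ),
      (Q d m r w B M)^[L] (ind M) x ≤ C * lam ^ L * (1 + |(x : ℝ)|)

/-- the law of the perturbation: carried by `[-B, B]`, mass at least `ε / d^K` at `0, 1, …, d^K - 1` -/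
structure Law (d : ℕ) (ε : ℝ) (K B : ℕ) (μ : Measure ℤ) : Prop where
  bdd : μ {u : ℤ | (B : ℤ) < |u|} = 0
  mass : ∀ u : ℤ, 0 ≤ u → u < (d : ℤ) ^ K → ε / (d : ℝ) ^ K ≤ μ.real {u}

/-- **LNG** (one starting point), from `Dec` and `S_PRB`: the probability that the first `L+1` terms of the orbit
of `x` are different and of modulus `≥ M` is at most `C lam^L (1+|x|)`.  Proof: apply `Dec` and `S_PRB` with
`B' = max B (d^K)` (then `μ {B' < |u|} = 0` too), `w u = μ.real {u}`; `∑_{|u| ≤ B'} w u ≤ 1` for a probability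
measure. -/
def S_LNG : Prop := S_PRB → ∀ (d : ℕ) (m r : ℤ → ℤ) (ε : ℝ) (K : ℕ), Dec d m r ε K →
  ∀ (B : ℕ) (μ : Measure ℤ) [IsProbabilityMeasure μ], Law d ε K B μ →
    ∃ M C lam : ℝ, 1 ≤ M ∧ 0 < C ∧ 0 < lam ∧ lam < 1 ∧ ∀ (L : ℕ) (x : ℤ),
      (Measure.infinitePi fun _ : ℤ => μ) {ω | Long d m r M L x ω} ≤
        ENNReal.ofReal (C * lam ^ L * (1 + |(x : ℝ)|))

/-- **SUM** (a numerical bound).  `∑_{x ∈ ℤ, |x| ≥ N} (2+|x|)^(-(A+2)) ≤ C N^(-A)`.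
Proof: `(2+|x|)^(-(A+2)) ≤ N^(-A) (2+|x|)^(-2)` for `|x| ≥ N > 0`, and `∑_x (2+|x|)^(-2) < ∞`. -/
def S_SUM : Prop := ∀ A : ℝ, 0 ≤ A → ∃ C : ℝ, 0 < C ∧ ∀ N : ℝ, 1 ≤ N →
  ∑' x : ℤ, (if N ≤ |(x : ℝ)| then ENNReal.ofReal ((2 + |(x : ℝ)|) ^ (-(A + 2))) else 0) ≤
    ENNReal.ofReal (C * N ^ (-A))

/-- almost surely all perturbations are at most `B`.  **BDD**: countably many null sets; the marginals of
`infinitePi` are `μ` (`measurePreserving_eval_infinitePi`). -/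
def S_BDD : Prop := ∀ (B : ℕ) (μ : Measure ℤ) [IsProbabilityMeasure μ], μ {u : ℤ | (B : ℤ) < |u|} = 0 →
  ∀ᵐ ω ∂(Measure.infinitePi fun _ : ℤ => μ), ∀ x : ℤ, |ω x| ≤ (B : ℤ)

/-- **TAIL** (no cycles far out), from LEN, the conclusion of LNG, SUM and BDD.  `A' = (A+4)/log(1/lam)`, `S₀`
from LEN with `A'`, `N ≥ max S₀ M` (for smaller `N` enlarge the constant: the left side is `≤ 1`).  If
`|ω| ≤ B` everywhere and `y` is periodic with all terms of modulus `≥ N`, let `x` be a term of smallest modulus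
(periodic, same cycle; `|x| ≥ N`); by LEN its minimal period is `≥ A' log(2+|x|) + 1`, so with
`L(x) = ⌊A' log(2+|x|)⌋₊` the first `L(x)+1` terms of the orbit of `x` are different
(`Function.minimalPeriod`, injectivity of `i ↦ f^[i] x` on `i < minimalPeriod`) and of modulus `≥ N ≥ M`:
`Long M (L x) x ω`.  So the probability is at most the sum over `|x| ≥ N` of
`C lam^(L x) (1+|x|) ≤ (C/lam) (2+|x|)^(-(A+4)) (2+|x|)`, and SUM (with `A`). -/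
def S_TAIL : Prop := ∀ (d : ℕ) (m r : ℤ → ℤ), Rel d m r → ∀ (B : ℕ) (μ : Measure ℤ) [IsProbabilityMeasure μ],
  μ {u : ℤ | (B : ℤ) < |u|} = 0 → ∀ M C lam : ℝ, 1 ≤ M → 0 < C → 0 < lam → lam < 1 →
    (∀ (L : ℕ) (x : ℤ), (Measure.infinitePi fun _ : ℤ => μ) {ω | Long d m r M L x ω} ≤
        ENNReal.ofReal (C * lam ^ L * (1 + |(x : ℝ)|))) →
    ∀ A : ℝ, 0 < A → ∃ C' : ℝ, ∀ N : ℝ, 1 ≤ N →
      (Measure.infinitePi fun _ : ℤ => μ) {ω | ∃ x ∈ Function.periodicPts (stp d m r ω),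
        ∀ i : ℕ, N ≤ |(((stp d m r ω)^[i] x : ℤ) : ℝ)|} ≤ ENNReal.ofReal (C' * N ^ (-A))

/-- **BC** (Borel–Cantelli), from the conclusion of LNG: with `c = 4 / log(1/lam)`, `L = ⌈c log(2+|x|)⌉₊`, the
probability of `Long M L x` is at most `C (2+|x|)^(-4) (1+|x|) ≤ C (2+|x|)^(-3)`, summable over `ℤ`
(`S_SUM` may help); `MeasureTheory.measure_limsup_cofinite_eq_zero` / `ae_finite_setOf_mem`. -/
def S_BC : Prop := ∀ (d : ℕ) (m r : ℤ → ℤ) (μ : Measure ℤ) [IsProbabilityMeasure μ],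
  ∀ M C lam : ℝ, 1 ≤ M → 0 < C → 0 < lam → lam < 1 →
    (∀ (L : ℕ) (x : ℤ), (Measure.infinitePi fun _ : ℤ => μ) {ω | Long d m r M L x ω} ≤
        ENNReal.ofReal (C * lam ^ L * (1 + |(x : ℝ)|))) →
    ∃ c : ℝ, 0 < c ∧ ∀ᵐ ω ∂(Measure.infinitePi fun _ : ℤ => μ),
      {x : ℤ | Long d m r M ⌈c * Real.log (2 + |(x : ℝ)|)⌉₊ x ω}.Finite

/-- **FPP** (deterministic).  All orbits finite and every periodic orbit has a term of modulus `< N`: then there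
are only finitely many periodic points and every orbit reaches one of them.  Proof: the set of periodic points is
contained in the union over `|y| < N` of the ranges of the orbits of `y` (the orbit of a periodic point returns to
it: if `f^[i] x = y` then `x` is in the orbit of `y`); a finite orbit repeats, `f^[i] x = f^[j] x`, `i < j`, so
`f^[i] x` is periodic. -/
def S_FPP : Prop := ∀ (f : ℤ → ℤ) (N : ℝ), (∀ x : ℤ, (Set.range fun i : ℕ => f^[i] x).Finite) →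
  (∀ x ∈ Function.periodicPts f, ∃ i : ℕ, |((f^[i] x : ℤ) : ℝ)| < N) →
    (Function.periodicPts f).Finite ∧ ∀ x : ℤ, ∃ k : ℕ, f^[k] x ∈ Function.periodicPts f

/-- the final theorem -/
def S_CY : Prop := ∀ (d : ℕ) (m r : ℤ → ℤ), Rel d m r →
  (∏ j ∈ range d, m (j : ℤ)) < (d : ℤ) ^ d → ∀ ε : ℝ, 0 < ε → ε < 1 → ∃ K : ℕ, ∀ (B : ℕ) (μ : Measure ℤ)
    [IsProbabilityMeasure μ], Law d ε K B μ →
    (∀ᵐ ω ∂(Measure.infinitePi fun _ : ℤ => μ),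
      (Function.periodicPts (stp d m r ω)).Finite ∧
      ∀ x : ℤ, ∃ k : ℕ, (stp d m r ω)^[k] x ∈ Function.periodicPts (stp d m r ω)) ∧
    ∀ A : ℝ, 0 < A → ∃ C : ℝ, ∀ N : ℝ, 1 ≤ N →
      (Measure.infinitePi fun _ : ℤ => μ) {ω | ∃ x ∈ Function.periodicPts (stp d m r ω),
        ∀ i : ℕ, N ≤ |(((stp d m r ω)^[i] x : ℤ) : ℝ)|} ≤ ENNReal.ofReal (C * N ^ (-A))

end Pool.Agent.U29.CY
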