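import Pool.Agent.U29.CY.Stm
import Pool.Agent.U762.RP.Stm2

set_option autoImplicit false

/-!
# Project CY, second half: finitely many cycles for ALL relatively prime maps, contracting or expanding
-/

namespace Pool.Agent.U29.CY

open Finset MeasureTheory Filter Pool.Agent.U762.RP

/-- `x` lies on a cycle with `n` elements, all of modulus at least `M` -/
def Cyc (d : ℕ) (m r : ℤ → ℤ) (M : ℝ) (n : ℕ) (x : ℤ) (ω : ℤ → ℤ) : Prop :=
  (∀ i : ℕ, M ≤ |(((stp d m r ω)^[i] x : ℤ) : ℝ)|) ∧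
    (∀ i j : ℕ, i < j → j < n → (stp d m r ω)^[i] x ≠ (stp d m r ω)^[j] x) ∧ (stp d m r ω)^[n] x = x

/-- **PRC** (from the environment to the annealed chain, for cycles).  As PRB, see
`Pool/Agent/U511/RP/PRB.lean`, theorem `main` (induction on `L` for the sets
`{ω = v on A, the points stp^[i] x (i < L) are different, not in A, and of modulus ≥ M, stp^[L] x = z}`, `z` fixed,
bounded by `(∏_{a ∈ A} μ {v a}) * Q^L (1_{z, |z| ≥ M}) x`). -/
def S_PRC : Prop := ∀ (d : ℕ) (m r : ℤ → ℤ) (μ : Measure ℤ) [IsProbabilityMeasure μ] (B : ℕ),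
  μ {u : ℤ | (B : ℤ) < |u|} = 0 → ∀ (M : ℝ) (n : ℕ) (x : ℤ),
    (Measure.infinitePi fun _ : ℤ => μ) {ω | Cyc d m r M n x ω} ≤
      ENNReal.ofReal ((Q d m r (fun u => μ.real {u}) B M)^[n]
        (fun z => if z = x ∧ M ≤ |(z : ℝ)| then 1 else 0) x)

/-- exponential decay of `|x|^(-θ)` along the killed chain at block length `K` (the conclusion of `S_ANAm`) -/
def Decm (d : ℕ) (m r : ℤ → ℤ) (ε : ℝ) (K : ℕ) : Prop := ∀ B : ℕ, d ^ K ≤ B →
  ∃ M₀ C lam θ : ℝ, 1 ≤ M₀ ∧ 0 < C ∧ 0 < lam ∧ lam < 1 ∧ 0 < θ ∧ θ < 1 ∧ ∀ M : ℝ, M₀ ≤ M →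
    ∀ w : ℤ → ℝ, (∀ u, 0 ≤ w u) → ∑ u ∈ Icc (-(B : ℤ)) B, w u ≤ 1 →
    (∀ u : ℤ, 0 ≤ u → u < (d : ℤ) ^ K → ε / (d : ℝ) ^ K ≤ w u) → ∀ (L : ℕ) (x : ℤ),
      (Q d m r w B M)^[L] (Vm M θ) x ≤ C * lam ^ L * Vm M θ x

/-- the probability to be the smallest element of a cycle with `n` elements decays exponentially in `n` -/
def Rare (d : ℕ) (m r : ℤ → ℤ) (μ : Measure ℤ) : Prop :=
  ∃ M₀ C lam : ℝ, 1 ≤ M₀ ∧ 0 < C ∧ 0 < lam ∧ lam < 1 ∧ ∀ x : ℤ, M₀ ≤ |(x : ℝ)| → ∀ n : ℕ, 1 ≤ n →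
    (Measure.infinitePi fun _ : ℤ => μ) {ω | Cyc d m r |(x : ℝ)| n x ω} ≤
      ENNReal.ofReal (C * lam ^ n * (1 + |(x : ℝ)|))

/-- **UC** (contracting case), from `Dec` and PRB via LNG (`Pool.Agent.U458.CY.LNG`, theorem `t_LNG : S_LNG`):
`Cyc |x| n x` with `|x| ≥ M` implies `Long M (n-1) x`; `lam^(n-1) = lam^n / lam`. -/
def S_UC : Prop := S_PRB → ∀ (d : ℕ) (m r : ℤ → ℤ) (ε : ℝ) (K : ℕ), Dec d m r ε K →
  ∀ (B : ℕ) (μ : Measure ℤ) [IsProbabilityMeasure μ], Law d ε K B μ → Rare d m r μ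

/-- **UE** (expanding case), from `Decm` and PRC: take `B' = max B (d^K)`, `w u = μ.real {u}`, `M = |x| ≥ M₀`.
Pointwise `(if z = x ∧ M ≤ |z| then 1 else 0) ≤ |x|^θ * Vm M θ z`; `Q` is positive and linear, so
`Q^n (1_x) x ≤ |x|^θ Q^n (Vm M θ) x ≤ |x|^θ C lam^n |x|^(-θ) = C lam^n`. -/
def S_UE : Prop := S_PRC → ∀ (d : ℕ) (m r : ℤ → ℤ) (ε : ℝ) (K : ℕ), Decm d m r ε K →
  ∀ (B : ℕ) (μ : Measure ℤ) [IsProbabilityMeasure μ], Law d ε K B μ → Rare d m r μ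

/-- **TAIL2** (no cycles far out), from LEN, SUM, BDD; see `Pool/Agent/U981/CY/TAIL.lean`.  `A' = (A+4)/log(1/lam)`,
`S₀` from LEN with `A'`, `N ≥ max S₀ M₀` (for smaller `N` enlarge the constant: the left side is `≤ 1`).  If
`|ω| ≤ B` everywhere and `y` is periodic with all terms of modulus `≥ N`, let `x` be a term of smallest modulus
and `n` its minimal period, `n ≥ A' log(2+|x|) + 1`: `Cyc |x| n x ω`.  So the probability is at most the sum over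
`|x| ≥ N` and `n ≥ A' log(2+|x|)` of `C lam^n (1+|x|)`, at most
`∑_{|x| ≥ N} (C/(1-lam)) (2+|x|)^(-(A+4)) (1+|x|)`, and SUM. -/
def S_TAIL2 : Prop := ∀ (d : ℕ) (m r : ℤ → ℤ), Rel d m r → ∀ (B : ℕ) (μ : Measure ℤ) [IsProbabilityMeasure μ],
  μ {u : ℤ | (B : ℤ) < |u|} = 0 → Rare d m r μ →
    ∀ A : ℝ, 0 < A → ∃ C' : ℝ, ∀ N : ℝ, 1 ≤ N →
      (Measure.infinitePi fun _ : ℤ => μ) {ω | ∃ x ∈ Function.periodicPts (stp d m r ω),
        ∀ i : ℕ, N ≤ |(((stp d m r ω)^[i] x : ℤ) : ℝ)|} ≤ ENNReal.ofReal (C' * N ^ (-A))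

/-- **FPD** (deterministic).  If every periodic orbit has a term of modulus `< N`, then there are only finitely
many periodic points, and every orbit reaches one of them or tends to infinity in modulus.  Proof: there are
finitely many cycles (each contains an integer `|y| < N`, and is the range of its orbit), each is finite; if an
orbit has two equal terms it reaches a periodic point, otherwise its terms are different and
`|x_i| → ∞` (`Function.Injective` and `Int.cofinite_eq`/`Filter.Tendsto.comp`). -/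
def S_FPD : Prop := ∀ (f : ℤ → ℤ) (N : ℝ),
  (∀ x ∈ Function.periodicPts f, ∃ i : ℕ, |((f^[i] x : ℤ) : ℝ)| < N) →
    (Function.periodicPts f).Finite ∧ ∀ x : ℤ, (∃ k : ℕ, f^[k] x ∈ Function.periodicPts f) ∨
      Tendsto (fun i : ℕ => |f^[i] x|) atTop atTop

/-- the final theorem -/
def S_CY2 : Prop := ∀ (d : ℕ) (m r : ℤ → ℤ), Rel d m r → ∀ ε : ℝ, 0 < ε → ε < 1 →
  ∃ K : ℕ, ∀ (B : ℕ) (μ : Measure ℤ) [IsProbabilityMeasure μ], Law d ε K B μ →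
    (∀ᵐ ω ∂(Measure.infinitePi fun _ : ℤ => μ),
      (Function.periodicPts (stp d m r ω)).Finite ∧
      (∀ x : ℤ, (∃ k : ℕ, (stp d m r ω)^[k] x ∈ Function.periodicPts (stp d m r ω)) ∨
        Tendsto (fun i : ℕ => |(stp d m r ω)^[i] x|) atTop atTop) ∧
      ((∏ j ∈ range d, m (j : ℤ)) < (d : ℤ) ^ d →
        ∀ x : ℤ, ∃ k : ℕ, (stp d m r ω)^[k] x ∈ Function.periodicPts (stp d m r ω))) ∧
    ∀ A : ℝ, 0 < A → ∃ C : ℝ, ∀ N : ℝ, 1 ≤ N →
      (Measure.infinitePi fun _ : ℤ => μ) {ω | ∃ x ∈ Function.periodicPts (stp d m r ω),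
        ∀ i : ℕ, N ≤ |(((stp d m r ω)^[i] x : ℤ) : ℝ)|} ≤ ENNReal.ofReal (C * N ^ (-A))

end Pool.Agent.U29.CY
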